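import Pool.Agent.Helper79.KM.Defs

/-!
Candidate K, blocks B1, B2, B3: the Lie algebra `LL S` is stable under the normaliser, it contains the derivatives of the
one parameter subgroups of the Zariski closure, and for a block diagonal group it consists of block diagonal matrices.
-/

set_option autoImplicit false

open Matrix H77MT MvPolynomial

namespace Pool.Agent.Helper79.KM

section B
variable {K : Type} [Field K] {n : Type} [Fintype n] [DecidableEq n]

theorem DD_lt (A g : Matrix n n K) (f : MvPolynomial (n × n) K) : DD A (lt g f) = lt g (DD A f) := by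
  have hltX : ∀ p : n × n, lt g (X p) = ∑ k, C (g p.1 k) * X (k, p.2) := fun p => by simp [lt]
  have hltC : ∀ c : K, lt g (C c) = C c := fun c => by simp [lt, MvPolynomial.algebraMap_eq]
  induction f using MvPolynomial.induction_on with
  | C c => simp [hltC]
  | add p q hp hq => simp only [map_add, hp, hq]
  | mul_X p i hp =>
    have hX : DD A (lt g (X i)) = lt g (DD A (X i)) := by
      rw [hltX, DD_X, map_sum, map_sum]
      have e1 : ∀ k, DD A (C (g i.1 k) * X (k, i.2) : MvPolynomial (n × n) K) =
          ∑ l, C (g i.1 k * A l i.2) * X (k, l) := by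
        intro k
        rw [Derivation.leibniz, DD_C, smul_zero, add_zero, DD_X, smul_eq_mul, Finset.mul_sum]
        refine Finset.sum_congr rfl fun l _ => ?_
        simp only [C_mul]; ring
      have e2 : ∀ k, lt g (C (A k i.2) * X (i.1, k)) = ∑ l, C (g i.1 l * A k i.2) * X (l, k) := by
        intro k
        rw [map_mul, hltC, hltX, Finset.mul_sum]
        refine Finset.sum_congr rfl fun l _ => ?_
        simp only [C_mul]; ring
      simp_rw [e1, e2]
      rw [Finset.sum_comm]
    simp only [map_mul, Derivation.leibniz, hp, hX, map_add, smul_eq_mul]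

/-- B1 -/
theorem LL_norm {S : Set (Matrix n n K)} {A g g' : Matrix n n K} (h1 : g * g' = 1) (hg : ∀ s ∈ S, g * s * g' ∈ S)
    (hg' : ∀ s ∈ S, g' * s * g ∈ S) (hA : A ∈ LL S) : g' * A * g ∈ LL S := by
  intro f hf s hs
  have h2 : g' * g = 1 := mul_eq_one_comm.mp h1
  have h := hA (lt g' (rt g f)) (fun t ht => by
    rw [ev_lt, ev_rt]
    exact hf _ (hg' t ht)) (g * s * g') (hg s hs)
  rw [DD_lt, DD_rt A g g' h1, ev_lt, ev_rt] at h
  have e : g' * (g * s * g') * g = s := by
    calc g' * (g * s * g') * g = (g' * g) * s * (g' * g) := by simp only [Matrix.mul_assoc]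
      _ = s := by rw [h2, Matrix.one_mul, Matrix.mul_one]
  rwa [e] at h

/-- A Laurent polynomial which vanishes at all the units is zero. -/
theorem laurent_zero [Infinite K] (x : LaurentPolynomial K)
    (h : ∀ u : Kˣ, AddMonoidAlgebra.lift K K ℤ ((Units.coeHom K).comp (zpowersHom Kˣ u)) x = 0) : x = 0 := by
  obtain ⟨m, p, hp⟩ := LaurentPolynomial.exists_T_pow x
  have hev : ∀ (u : Kˣ) (q : Polynomial K), AddMonoidAlgebra.lift K K ℤ ((Units.coeHom K).comp (zpowersHom Kˣ u))
      (Polynomial.toLaurent q) = q.eval (u : K) := by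
    intro u q
    induction q using Polynomial.induction_on' with
    | add p q hp hq => rw [map_add, map_add, hp, hq, Polynomial.eval_add]
    | monomial k a =>
      rw [← Polynomial.C_mul_X_pow_eq_monomial, map_mul, map_pow, Polynomial.toLaurent_C, Polynomial.toLaurent_X,
        map_mul, map_pow, Polynomial.eval_mul, Polynomial.eval_C, Polynomial.eval_pow, Polynomial.eval_X]
      congr 1
      · have : (LaurentPolynomial.C a : LaurentPolynomial K) = algebraMap K (LaurentPolynomial K) a := rfl
        rw [this, AlgHom.commutes]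
        rfl
      · congr 1
        have : (LaurentPolynomial.T 1 : LaurentPolynomial K) = AddMonoidAlgebra.single (1 : ℤ) (1 : K) := rfl
        rw [this, AddMonoidAlgebra.lift_single]
        simp
  have hp0 : p = 0 := by
    apply Polynomial.eq_zero_of_infinite_isRoot
    have hinf : (Set.range (fun u : Kˣ => (u : K))).Infinite := by
      have : Set.range (fun u : Kˣ => (u : K)) = {0}ᶜ := by
        ext y
        constructor
        · rintro ⟨u, rfl⟩
          exact u.ne_zero
        · intro hy
          exact ⟨Units.mk0 y hy, rfl⟩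
      rw [this]
      exact (Set.finite_singleton (0 : K)).infinite_compl
    refine hinf.mono ?_
    rintro _ ⟨u, rfl⟩
    show p.eval (u : K) = 0
    rw [← hev u p, hp, map_mul, h u, zero_mul]
  rw [hp0, map_zero] at hp
  have : x * LaurentPolynomial.T (m : ℤ) * LaurentPolynomial.T (-(m : ℤ)) = 0 := by rw [← hp, zero_mul]
  rwa [mul_assoc, ← LaurentPolynomial.T_add, add_neg_cancel, LaurentPolynomial.T_zero, mul_one] at this

/-- B2 -/
theorem LL_ht [CharZero K] {S : Set (Matrix n n K)} (hmul : ∀ s ∈ S, ∀ t ∈ S, s * t ∈ S) (P : Finset ℤ)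
    (R : ℤ → Matrix n n K) (hR : ∀ z : K, z ≠ 0 → ∑ p ∈ P, z ^ p • R p ∈ zcl S) (hsum : ∑ p ∈ P, R p = 1) :
    ∑ p ∈ P, (p : K) • R p ∈ LL S := by
  intro f hf s hs
  set A : Matrix n n K := ∑ p ∈ P, (p : K) • R p with hA
  let Φ : MvPolynomial (n × n) K →ₐ[K] LaurentPolynomial K :=
    aeval (fun q : n × n => ∑ p ∈ P, AddMonoidAlgebra.single p ((s * R p) q.1 q.2))
  have hΦX : ∀ q : n × n, Φ (X q) = ∑ p ∈ P, AddMonoidAlgebra.single p ((s * R p) q.1 q.2) := fun q => by simp [Φ]
  -- the values
  have hval : ∀ (u : Kˣ) (q : MvPolynomial (n × n) K),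
      AddMonoidAlgebra.lift K K ℤ ((Units.coeHom K).comp (zpowersHom Kˣ u)) (Φ q) =
        ev (s * ∑ p ∈ P, (u : K) ^ p • R p) q := by
    intro u q
    have : (AddMonoidAlgebra.lift K K ℤ ((Units.coeHom K).comp (zpowersHom Kˣ u))).comp Φ =
        ev (s * ∑ p ∈ P, (u : K) ^ p • R p) := by
      apply MvPolynomial.algHom_ext
      intro q
      rw [AlgHom.comp_apply, hΦX, map_sum, ev_X, Matrix.mul_sum, Matrix.sum_apply]
      refine Finset.sum_congr rfl fun p _ => ?_
      rw [AddMonoidAlgebra.lift_single, Matrix.mul_smul, Matrix.smul_apply]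
      simp [mul_comm]
    rw [← this]; rfl
  have h0 : Φ f = 0 := by
    apply laurent_zero
    intro u
    rw [hval]
    exact zcl_mul hmul (subset_zcl S hs) (hR (u : K) u.ne_zero) f hf
  -- the derivative
  let μ : Multiplicative ℤ →* DualNumber K :=
    { toFun := fun p => TrivSqZeroExt.inl 1 + TrivSqZeroExt.inr ((Multiplicative.toAdd p : ℤ) : K)
      map_one' := by
        apply TrivSqZeroExt.ext <;> simp
      map_mul' := by
        intro p q
        apply TrivSqZeroExt.ext
        · simp
        · simp [add_comm] }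
  have hder : ∀ q : MvPolynomial (n × n) K, AddMonoidAlgebra.lift K (DualNumber K) ℤ μ (Φ q) =
      TrivSqZeroExt.inl (ev s q) + TrivSqZeroExt.inr (ev s (DD A q)) := by
    intro q
    induction q using MvPolynomial.induction_on with
    | C a =>
      have : Φ (C a) = algebraMap K (LaurentPolynomial K) a := by
        simp [Φ]
      rw [this, AlgHom.commutes, ev_C, DD_C, map_zero]
      apply TrivSqZeroExt.ext <;> simp [TrivSqZeroExt.algebraMap_eq_inl]
    | add p q hp hq =>
      simp only [map_add, hp, hq]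
      apply TrivSqZeroExt.ext <;> simp
    | mul_X p i hp =>
      have hX : AddMonoidAlgebra.lift K (DualNumber K) ℤ μ (Φ (X i)) =
          TrivSqZeroExt.inl (ev s (X i)) + TrivSqZeroExt.inr (ev s (DD A (X i))) := by
        rw [hΦX, map_sum, ev_X, DD_X, map_sum]
        have e1 : ∑ k, ev s (C (A k i.2) * X (i.1, k)) = (s * A) i.1 i.2 := by
          rw [Matrix.mul_apply]
          refine Finset.sum_congr rfl fun k _ => ?_
          rw [map_mul, ev_C, ev_X, mul_comm]
        rw [e1]
        have e2 : (s * A) i.1 i.2 = ∑ p ∈ P, (p : K) * (s * R p) i.1 i.2 := by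
          rw [hA, Matrix.mul_sum, Matrix.sum_apply]
          refine Finset.sum_congr rfl fun p _ => ?_
          rw [Matrix.mul_smul, Matrix.smul_apply, smul_eq_mul]
        have e3 : s i.1 i.2 = ∑ p ∈ P, (s * R p) i.1 i.2 := by
          conv_lhs => rw [← Matrix.mul_one s, ← hsum, Matrix.mul_sum, Matrix.sum_apply]
        rw [e2, e3]
        have e4 : ∀ p : ℤ, AddMonoidAlgebra.lift K (DualNumber K) ℤ μ
            (AddMonoidAlgebra.single p ((s * R p) i.1 i.2)) =
            TrivSqZeroExt.inl ((s * R p) i.1 i.2) + TrivSqZeroExt.inr ((p : K) * (s * R p) i.1 i.2) := by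
          intro p
          rw [AddMonoidAlgebra.lift_single]
          apply TrivSqZeroExt.ext
          · simp [μ]
          · simp [μ, mul_comm]
        rw [Finset.sum_congr rfl fun p _ => e4 p, Finset.sum_add_distrib, ← TrivSqZeroExt.inl_sum,
          ← TrivSqZeroExt.inr_sum]
      rw [map_mul, map_mul, hp, hX, Derivation.leibniz]
      simp only [smul_eq_mul, map_mul, map_add]
      apply TrivSqZeroExt.ext
      · simp
      · simp
        ring
  have h1 := hder f
  rw [h0, map_zero] at h1
  have h2 := congrArg TrivSqZeroExt.snd h1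
  simpa using h2.symm

variable {Γ X : Type} [Group Γ] [DecidableEq X] [Fintype X] {g : ℕ}

/-- B3 -/
theorem LL_block (ρ : Rep Γ X g K) (Δ : Subgroup Γ) {A : Matrix (Ix g × X) (Ix g × X) K} (hA : A ∈ LL (img ρ Δ)) :
    ∃ M : X → Matrix (Ix g) (Ix g) K, A = blockDiagonal M := by
  refine ⟨fun x => Matrix.of fun i j => A (i, x) (j, x), ?_⟩
  ext ⟨i, x⟩ ⟨j, y⟩
  rw [blockDiagonal_apply]
  by_cases hxy : x = y
  · subst hxy
    simp
  · rw [if_neg hxy]
    have h1 : (1 : Matrix (Ix g × X) (Ix g × X) K) ∈ img ρ Δ := by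
      refine ⟨1, Δ.one_mem, ?_⟩
      rw [mat]
      have : (fun x => ((ρ x 1 : GL (Ix g) K) : Matrix (Ix g) (Ix g) K)) = 1 := by
        funext x
        simp
      rw [this]
      exact blockDiagonal_one.symm
    have h := hA (MvPolynomial.X ((i, x), (j, y))) (by
      rintro _ ⟨γ, _, rfl⟩
      rw [ev_X, mat, blockDiagonal_apply, if_neg hxy]) 1 h1
    rw [DD_X, map_sum] at h
    rw [← h, Finset.sum_eq_single (i, x)]
    · rw [map_mul, ev_C, ev_X, Matrix.one_apply_eq, mul_one]
    · intro k _ hk
      rw [map_mul, ev_X, Matrix.one_apply_ne (fun e => hk e.symm), mul_zero]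
    · intro hk
      exact absurd (Finset.mem_univ _) hk
end B

end Pool.Agent.Helper79.KM
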